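import Pool.Agent.Q284.AO.Ass

/-!
# Twists by characters do not see that the nilpotent orbit is the same at all places

`X` is the projective line over a finite field `F` of odd characteristic, `G = PGL_2g`, `g ≥ g₀`, so the dual group is
`SL_2g(ℂ)`.  `R_(|P|, 0)` is the set of the classes of `SU(2g)`; for the orbit `O = (2^g)` (Jordan blocks of size two)
`R_(|P|, O)` is the set of the classes with the eigenvalues `|P|^(1/2) β_j`, `|P|^(-1/2) β_j`, `|β_j| = 1`,
`(∏ β_j)² = 1`.

For EVERY set `S` of closed points (finite places of `F(T)`) there are classes `c_P`, in `R_(|P|, (2^g))` for `P ∈ S` and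
in `R_(|P|, 0)` for the other `P`, closed under conjugation, such that for EVERY idele class character `χ` of `F(T)` (up
to unramified twists `|·|^s`: the primitive Hayes characters of any level) the `L`-function `L(s, c ⊗ χ)` is nice: its
Euler product converges for `Re s ≥ 1 - 5/(4g)` to an entire function, a polynomial in `q^(-s)` of the prescribed
degree, with functional equation with the prescribed root number, without zeros in `Re s ≥ 1 - 5/(4g)`.

Arthur's conjecture says that the orbit of the system of the Hecke eigenvalues of an automorphic function does not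
depend on the place.  So this is not a consequence of the analytic properties of the standard `L`-function and of all
its twists by characters, not even if the local form of the conjecture holds at every place.

The proof is the one of `Pool/Agent/Results/MP_8410ab_nt/PrescribedExponents.lean` (exponents `θ < 1/2`), with the
exponent `1/2` admitted; the new file is `Pool/Agent/Q284/AO/Ass.lean`.

Project PX3: plan, statements with paper proofs and assembly by helper284; lemmas proved by helpers 137, 223, 239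
(and, projects PS and PX, helpers 16, 24, 53, 58, 68, 92, 95, 149, 162, 166, 177, 184, 222, 225, 237, 249, 251, 261,
277, 285).
-/

set_option autoImplicit false

open Finset Polynomial ComplexConjugate

namespace Pool.Agent.Results.MP_de7261_nt.OrbitAtEachPlace

open Pool.Agent.Q284.PS (Prim Place absPow Nice Tempered)
open Pool.Agent.Q284.PX (stFactor SelfDual)

/-- the class is in `R_(Q, O)`, `O = (2^g)`: eigenvalues `Q^(1/2) β_j`, `Q^(-1/2) β_j`, `β` in the maximal compact
subgroup `{h ∈ U(g) : (det h)² = 1}` of the centraliser of `SL_2` -/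
def InRTwo {g : ℕ} (Q : ℝ) (α : Fin g ⊕ Fin g → ℂ) : Prop :=
  ∃ β : Fin g → ℂ, (∀ j, ‖β j‖ = 1) ∧ (∏ j, β j) ^ 2 = 1 ∧
    ∀ j, α (Sum.inl j) = ((Real.sqrt Q : ℝ) : ℂ) * β j ∧ α (Sum.inr j) = (((Real.sqrt Q)⁻¹ : ℝ) : ℂ) * β j

/-- the class is in `R_(Q, 0)`: the class of an element of `SU(2g)` -/
def InRZero {g : ℕ} (α : Fin g ⊕ Fin g → ℂ) : Prop := (∀ j, ‖α j‖ = 1) ∧ ∏ j, α j = 1

theorem result : ∃ g₀ : ℕ, ∀ g : ℕ, g₀ ≤ g → ∀ (F : Type) [Field F] [Fintype F], ringChar F ≠ 2 →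
    -- the places with orbit `(2^g)`
    ∀ S : Set F[X],
    -- degrees and root numbers
    ∀ (D : F[X] → ℕ → (F[X] → ℂ) → ℕ) (ε : (F[X] → ℂ) → ℂ),
    (∀ (Q : F[X]) (l : ℕ) (χ : F[X] → ℂ), Prim Q l χ →
      2 * g * (Q.natDegree + max 2 l - 1) ≤ D Q l χ ∧ D Q l (fun f => conj (χ f)) = D Q l χ) →
    (∀ χ, ‖ε χ‖ = 1) → (∀ χ, ε (fun f => conj (χ f)) = conj (ε χ)) →
    ∃ c : F[X] → Fin g ⊕ Fin g → ℂ,
      (∀ P : F[X], P.Monic → Irreducible P →
        (P ∈ S → InRTwo ((Fintype.card F : ℝ) ^ P.natDegree) (c P)) ∧ (P ∉ S → InRZero (c P)) ∧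
        ∀ w : ℂ, ∏ j, (1 - conj (c P j) * w) = ∏ j, (1 - c P j * w)) ∧
      ∀ (Q : F[X]) (l : ℕ) (χ : F[X] → ℂ), Prim Q l χ → ∃ L : ℂ → ℂ,
        Nice (Fintype.card F) (D Q l χ) (ε χ) L ∧
        ∀ s : ℂ, 1 - 5 / (4 * (g : ℝ)) ≤ s.re → L s ≠ 0 ∧
          HasProd (fun P : Place F => ∏ j, (1 - c P.1 j * (χ P.1 * absPow P.1 s))⁻¹) (L s) := by
  classical
  obtain ⟨g₀, h⟩ := Pool.Agent.Q284.AO.aoStm
  refine ⟨g₀, ?_⟩
  intro g hg F _ _ hF S D ε hD hε hεc
  let θ : F[X] → ℝ := fun P => if P ∈ S then 1 / 2 else 0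
  have hθ : ∀ P, 0 ≤ θ P ∧ θ P ≤ 1 / 2 := by
    intro P
    show 0 ≤ (if P ∈ S then (1 / 2 : ℝ) else 0) ∧ (if P ∈ S then (1 / 2 : ℝ) else 0) ≤ 1 / 2
    split_ifs <;> norm_num
  obtain ⟨β, h1, h2, h3⟩ := h g hg F hF θ hθ D ε hD hε hεc
  let y : F[X] → ℝ := fun P => (Fintype.card F : ℝ) ^ (θ P * P.natDegree)
  let c : F[X] → Fin g ⊕ Fin g → ℂ := fun P =>
    Sum.elim (fun j => ((y P : ℝ) : ℂ) * β P j) (fun j => (((y P)⁻¹ : ℝ) : ℂ) * β P j)
  have hq0 : (0 : ℝ) ≤ Fintype.card F := Nat.cast_nonneg _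
  refine ⟨c, ?_, ?_⟩
  · intro P hP1 hP2
    obtain ⟨hb1, hb2⟩ := h1 P hP1 hP2
    refine ⟨?_, ?_, ?_⟩
    · intro hS
      have hy : y P = Real.sqrt ((Fintype.card F : ℝ) ^ P.natDegree) := by
        show (Fintype.card F : ℝ) ^ ((if P ∈ S then (1 / 2 : ℝ) else 0) * P.natDegree) = _
        rw [if_pos hS, Real.sqrt_eq_rpow, ← Real.rpow_natCast, ← Real.rpow_mul hq0]
        congr 1
        ring
      refine ⟨β P, hb1, by rw [hb2, one_pow], ?_⟩
      intro j
      rw [← hy]
      exact ⟨rfl, rfl⟩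
    · intro hS
      have hy : y P = 1 := by
        show (Fintype.card F : ℝ) ^ ((if P ∈ S then (1 / 2 : ℝ) else 0) * P.natDegree) = 1
        rw [if_neg hS, zero_mul, Real.rpow_zero]
      constructor
      · rintro (j | j)
        · show ‖((y P : ℝ) : ℂ) * β P j‖ = 1
          rw [hy, Complex.ofReal_one, one_mul]
          exact hb1 j
        · show ‖(((y P)⁻¹ : ℝ) : ℂ) * β P j‖ = 1
          rw [hy, inv_one, Complex.ofReal_one, one_mul]
          exact hb1 j
      · rw [Fintype.prod_sum_type]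
        show (∏ j, ((y P : ℝ) : ℂ) * β P j) * ∏ j, (((y P)⁻¹ : ℝ) : ℂ) * β P j = 1
        rw [hy, inv_one, Complex.ofReal_one]
        simp only [one_mul]
        rw [hb2, mul_one]
    · intro w
      rw [Fintype.prod_sum_type, Fintype.prod_sum_type]
      have h4 := h2 P hP1 hP2
      congr 1
      · show ∏ j, (1 - conj (((y P : ℝ) : ℂ) * β P j) * w) = ∏ j, (1 - ((y P : ℝ) : ℂ) * β P j * w)
        have h5 := h4 (((y P : ℝ) : ℂ) * w)
        have h6 : ∀ z : ℂ, z * (((y P : ℝ) : ℂ) * w) = ((y P : ℝ) : ℂ) * z * w := fun z => by ring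
        simp only [h6] at h5
        simp only [map_mul, Complex.conj_ofReal]
        exact h5
      · show ∏ j, (1 - conj ((((y P)⁻¹ : ℝ) : ℂ) * β P j) * w) = ∏ j, (1 - (((y P)⁻¹ : ℝ) : ℂ) * β P j * w)
        have h5 := h4 ((((y P)⁻¹ : ℝ) : ℂ) * w)
        have h6 : ∀ z : ℂ, z * ((((y P)⁻¹ : ℝ) : ℂ) * w) = (((y P)⁻¹ : ℝ) : ℂ) * z * w := fun z => by ring
        simp only [h6] at h5
        simp only [map_mul, Complex.conj_ofReal]
        exact h5
  · intro Q l χ hχ
    obtain ⟨L, h4, h5⟩ := h3 Q l χ hχ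
    refine ⟨L, h4, ?_⟩
    intro s hs
    obtain ⟨h6, h7⟩ := h5 s hs
    refine ⟨h6, ?_⟩
    refine (congrArg (fun G => HasProd G (L s)) ?_).mp h7
    funext P
    rw [Fintype.prod_sum_type]
    unfold stFactor
    rw [← prod_mul_distrib]
    rfl

end Pool.Agent.Results.MP_de7261_nt.OrbitAtEachPlace
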